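import Pool.Agent.W580.SH.StmA

/-!
Project SH (helper580), MP_ba6ea3_co: parts STARB, STARE.
-/

set_option autoImplicit false

namespace Pool.Agent.W636.SH

open Finset Pool.Agent.W580.SH

theorem mn_perm {R : Type} {k : ℕ} (ρ : Fin k → R) (c : Fin k → (R → ℝ)) (σ : Equiv.Perm (Fin k)) :
    |mn ρ (c ∘ σ)| = |mn ρ c| := by
  unfold mn
  have h : (Matrix.of fun a b => (c ∘ σ) b (ρ a) : Matrix (Fin k) (Fin k) ℝ) =
      (Matrix.of fun a b => c b (ρ a) : Matrix (Fin k) (Fin k) ℝ).submatrix id σ := by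
    ext a b; rfl
  rw [h, Matrix.det_permute', abs_mul]
  have : |((Equiv.Perm.sign σ : ℤ) : ℝ)| = 1 := by
    rcases Int.units_eq_one_or (Equiv.Perm.sign σ) with h1 | h1 <;> simp [h1]
  rw [this, one_mul]

theorem drop_eq {R : Type} {k : ℕ} (b : Fin k → (R → ℝ)) (y : R → ℝ) (j : Fin k) :
    ∃ σ : Equiv.Perm (Fin k),
      (fun c => (Fin.cons y b : Fin (k + 1) → (R → ℝ)) (j.succ.succAbove c)) =
        Function.update b j y ∘ σ := by
  cases k with
  | zero => exact j.elim0
  | succ k =>
    refine ⟨(finSuccEquiv' (0 : Fin (k + 1))).trans (finSuccEquiv' j).symm, ?_⟩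
    funext c
    refine Fin.cases ?_ (fun i => ?_) c
    · have h1 : j.succ.succAbove 0 = 0 := by simp
      have h2 : ((finSuccEquiv' (0 : Fin (k + 1))).trans (finSuccEquiv' j).symm) 0 = j := by
        rw [Equiv.trans_apply, finSuccEquiv'_at, finSuccEquiv'_symm_none]
      rw [h1, Function.comp_apply, h2, Function.update_self, Fin.cons_zero]
    · have h1 : j.succ.succAbove i.succ = (j.succAbove i).succ := by simp
      rw [h1, Fin.cons_succ]
      have h2 : ((finSuccEquiv' (0 : Fin (k + 1))).trans (finSuccEquiv' j).symm) i.succ =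
          j.succAbove i := by
        rw [Equiv.trans_apply, ← Fin.zero_succAbove, finSuccEquiv'_succAbove,
          finSuccEquiv'_symm_some]
      rw [Function.comp_apply, h2, Function.update_of_ne (Fin.succAbove_ne j i)]

theorem starb (h : S_CRAM) : S_STARB := by
  intro R D hD k ρ b y β hb hy hyb
  have hp : ∀ j, (Fin.cons y b : Fin (k + 1) → (R → ℝ)) j ∈ D := by
    intro j
    refine Fin.cases ?_ (fun i => ?_) j
    · exact hy
    · exact hb i
  have h1 := hD k ρ (Fin.cons y b) hp
  rw [Fin.sum_univ_succ] at h1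
  have h2 : (fun c => (Fin.cons y b : Fin (k + 1) → (R → ℝ)) ((0 : Fin (k + 1)).succAbove c)) = b := by
    funext c
    rw [Fin.zero_succAbove, Fin.cons_succ]
  have h3 : ∀ j : Fin k,
      |mn ρ (fun c => (Fin.cons y b : Fin (k + 1) → (R → ℝ)) (j.succ.succAbove c))| =
        |mn ρ b| * |β j| := by
    intro j
    obtain ⟨σ, hσ⟩ := drop_eq b y j
    rw [hσ, mn_perm, h.1 R k ρ b y β j hyb, abs_mul, mul_comm]
  rw [h2] at h1
  simp only [h3] at h1
  rw [← Finset.mul_sum] at h1
  linarith

theorem stare : S_STARE := by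
  intro R D hD k κ p β l hp hβ
  have h1 := hD k (κ ∘ l.succAbove) p hp
  set M : Matrix (Fin (k + 1)) (Fin (k + 1)) ℝ := Matrix.of fun a b => p b (κ a) with hM
  have h2 : M.mulVec β = Pi.single l 1 := by
    funext a
    rw [Matrix.mulVec, dotProduct]
    have := hβ a
    simp only [Pi.single_apply]
    rw [this]
    refine Finset.sum_congr rfl fun i _ => ?_
    simp [hM, mul_comm]
  have h3 : M.adjugate.mulVec (M.mulVec β) = M.det • β := by
    rw [Matrix.mulVec_mulVec, Matrix.adjugate_mul, Matrix.smul_mulVec, Matrix.one_mulVec]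
  have h4 : ∀ j, |M.det| * |β j| =
      |mn (κ ∘ l.succAbove) (fun b => p (j.succAbove b))| := by
    intro j
    have h5 := congrFun h3 j
    rw [h2, Matrix.mulVec_single_one] at h5
    simp only [Matrix.col_apply, Pi.smul_apply, smul_eq_mul] at h5
    rw [← abs_mul, ← h5, Matrix.adjugate_fin_succ_eq_det_submatrix, abs_mul, abs_pow, abs_neg,
      abs_one, one_pow, one_mul]
    rfl
  have h6 : mn κ p = M.det := rfl
  rw [h6, Finset.mul_sum]
  simp only [h4]
  exact h1

end Pool.Agent.W636.SH
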