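import Pool.Agent.W836.SH.Stm

/-! Counting lemmas for the project SH. -/

open scoped Classical

namespace Pool.Agent.W636.SH

open Pool.Agent.W836.SH

theorem cnt : S_CNT := by
  intro ι V I s a b hs hsupp hab
  set J := I.erase s with hJ
  have hinj : ∀ v ∈ V, ∀ w ∈ V, v s = w s → res J v = res J w → v = w := by
    intro v hv w hw hvw h
    funext i
    by_cases hi : i ∈ I
    · by_cases his : i = s
      · rw [his]; exact hvw
      · have h1 := congrFun h i
        have h2 : i ∈ J := by rw [hJ]; exact Finset.mem_erase.2 ⟨his, hi⟩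
        simpa [res, h2] using h1
    · rw [hsupp v hv i hi, hsupp w hw i hi]
  have h1 : V.card = (V.filter (fun v => v s = a)).card
      + (V.filter (fun v => ¬ v s = a)).card :=
    (Finset.card_filter_add_card_filter_not (s := V) (fun v => v s = a)).symm
  have h2 : ((V.filter (fun v => v s = a)).image (res J)).card
      = (V.filter (fun v => v s = a)).card := by
    apply Finset.card_image_of_injOn
    intro v hv w hw h
    rw [Finset.mem_coe, Finset.mem_filter] at hv hw
    exact hinj v hv.1 w hw.1 (hv.2.trans hw.2.symm) h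
  have h3 : ((V.filter (fun v => ¬ v s = a)).image (res J)).card
      = (V.filter (fun v => ¬ v s = a)).card := by
    apply Finset.card_image_of_injOn
    intro v hv w hw h
    rw [Finset.mem_coe, Finset.mem_filter] at hv hw
    have e1 := (hab v hv.1).resolve_left hv.2
    have e2 := (hab w hw.1).resolve_left hw.2
    exact hinj v hv.1 w hw.1 (e1.trans e2.symm) h
  have h4 := Finset.card_union_add_card_inter ((V.filter (fun v => v s = a)).image (res J))
    ((V.filter (fun v => ¬ v s = a)).image (res J))
  have h5 : (((V.filter (fun v => v s = a)).image (res J)) ∪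
      ((V.filter (fun v => ¬ v s = a)).image (res J))).card ≤ (pr J V).card := by
    apply Finset.card_le_card
    intro y hy
    unfold pr
    rw [Finset.mem_union, Finset.mem_image, Finset.mem_image] at hy
    rcases hy with ⟨v, hv, rfl⟩ | ⟨v, hv, rfl⟩
    · exact Finset.mem_image_of_mem _ (Finset.mem_filter.1 hv).1
    · exact Finset.mem_image_of_mem _ (Finset.mem_filter.1 hv).1
  have h6 : (((V.filter (fun v => v s = a)).image (res J)) ∩
      ((V.filter (fun v => ¬ v s = a)).image (res J))).card ≤ (XX s J V).card := by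
    apply Finset.card_le_card
    intro y hy
    rw [Finset.mem_inter, Finset.mem_image, Finset.mem_image] at hy
    obtain ⟨⟨v, hv, rfl⟩, w, hw, hwv⟩ := hy
    rw [Finset.mem_filter] at hv hw
    unfold XX
    refine Finset.mem_image_of_mem _ ?_
    rw [Finset.mem_filter]
    refine ⟨hv.1, w, hw.1, ?_, ?_⟩
    · intro i hi
      have := congrFun hwv i
      simpa [res, hi] using this
    · rw [hv.2]; exact hw.2
  omega

theorem red : S_RED := by
  intro ι R H D V a hS hDH haD hD3 hT
  have hdisj : Disjoint R H := hS.1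
  have haH : a ∈ H := hDH haD
  have haR : a ∉ R := fun h => (Finset.disjoint_left.1 hdisj) h haH
  obtain ⟨b0, hb0⟩ : (D.erase a).Nonempty := by
    rw [← Finset.card_pos, Finset.card_erase_of_mem haD]; omega
  have hb0a : b0 ≠ a := (Finset.mem_erase.1 hb0).1
  have hb0D : b0 ∈ D := (Finset.mem_erase.1 hb0).2
  set Q := (R ∪ H).erase a with hQ
  set X := XX a Q V with hX
  set P := (H.erase a) \ ((D.erase a).erase b0) with hP
  have hPH : P ⊆ H.erase a := Finset.sdiff_subset
  have hb0P : b0 ∈ P := by
    rw [hP, Finset.mem_sdiff]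
    exact ⟨Finset.mem_erase.2 ⟨hb0a, hDH hb0D⟩, fun h => (Finset.mem_erase.1 h).1 rfl⟩
  have hsup : ∀ x ∈ X, ∀ i, i ∉ Q → x i = 0 := by
    intro x hx i hi
    rw [hX] at hx
    unfold XX at hx
    obtain ⟨v, hv, rfl⟩ := Finset.mem_image.1 hx
    simp [res, hi]
  have hinj1 : Set.InjOn (res (R ∪ H.erase a)) (X : Set (ι → ℝ)) := by
    intro x hx x' hx' h
    funext i
    by_cases hi : i ∈ Q
    · have h1 := congrFun h i
      have h2 : i ∈ R ∪ H.erase a := by
        rw [hQ, Finset.mem_erase, Finset.mem_union] at hi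
        rw [Finset.mem_union, Finset.mem_erase]
        rcases hi.2 with h | h
        · exact Or.inl h
        · exact Or.inr ⟨hi.1, h⟩
      simpa only [res, if_pos h2] using h1
    · rw [hsup x hx i hi, hsup x' hx' i hi]
  have htie : ∀ c ∈ D, c ≠ a → c ≠ b0 → ∃ κ : ℝ, ∀ x ∈ X, x c = κ * x b0 := by
    intro c hc hca hcb
    obtain ⟨κ, -, hκ⟩ := hT a haD b0 hb0D c hc (Ne.symm hb0a) (Ne.symm hca) (Ne.symm hcb)
    refine ⟨κ, fun x hx => ?_⟩
    rw [hX] at hx
    unfold XX at hx
    obtain ⟨v, hv, rfl⟩ := Finset.mem_image.1 hx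
    rw [Finset.mem_filter] at hv
    obtain ⟨hvV, w, hw, hag, hne⟩ := hv
    have hcQ : c ∈ Q := by
      rw [hQ, Finset.mem_erase, Finset.mem_union]
      exact ⟨hca, Or.inr (hDH hc)⟩
    have hbQ : b0 ∈ Q := by
      rw [hQ, Finset.mem_erase, Finset.mem_union]
      exact ⟨hb0a, Or.inr (hDH hb0D)⟩
    have := hκ v hvV w hw (hag b0 hbQ).symm (hag c hcQ).symm (Ne.symm hne)
    simpa only [res, if_pos hcQ, if_pos hbQ] using this
  have hinj2 : Set.InjOn (res (R ∪ P)) (X : Set (ι → ℝ)) := by
    intro x hx x' hx' h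
    have hag : ∀ i ∈ R ∪ P, x i = x' i := by
      intro i hi
      have h1 := congrFun h i
      simpa only [res, if_pos hi] using h1
    funext i
    by_cases hi : i ∈ Q
    · by_cases hi2 : i ∈ R ∪ P
      · exact hag i hi2
      · have hiD : i ∈ (D.erase a).erase b0 := by
          by_contra hcon
          apply hi2
          rw [hQ, Finset.mem_erase, Finset.mem_union] at hi
          rw [Finset.mem_union, hP, Finset.mem_sdiff, Finset.mem_erase]
          rcases hi.2 with h | h
          · exact Or.inl h
          · exact Or.inr ⟨⟨hi.1, h⟩, hcon⟩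
        have h1 := Finset.mem_erase.1 hiD
        have h2 := Finset.mem_erase.1 h1.2
        obtain ⟨κ, hκ⟩ := htie i h2.2 h2.1 h1.1
        rw [hκ x hx, hκ x' hx', hag b0 (Finset.mem_union_right _ hb0P)]
    · rw [hsup x hx i hi, hsup x' hx' i hi]
  refine ⟨P, hPH, ?_⟩
  have hc1 : (pr (R ∪ P) X).card = X.card := Finset.card_image_of_injOn hinj2
  have hc2 : (pr (R ∪ H.erase a) X).card = X.card := Finset.card_image_of_injOn hinj1
  have hsub : (D.erase a).erase b0 ⊆ H.erase a := by
    intro i hi
    have h1 := Finset.mem_erase.1 hi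
    have h2 := Finset.mem_erase.1 h1.2
    exact Finset.mem_erase.2 ⟨h2.1, hDH h2.2⟩
  have hPc : P.card = (H.erase a).card - ((D.erase a).erase b0).card :=
    Finset.card_sdiff_of_subset hsub
  have hle := Finset.card_le_card hsub
  have hDc : ((D.erase a).erase b0).card = D.card - 2 := by
    rw [Finset.card_erase_of_mem hb0, Finset.card_erase_of_mem haD]; omega
  unfold ee
  rw [hc1, hc2, hPc]
  have : (((H.erase a).card - ((D.erase a).erase b0).card : ℕ) : ℤ)
      = ((H.erase a).card : ℤ) - ((D.card : ℤ) - 2) := by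
    rw [Nat.cast_sub hle, hDc, Nat.cast_sub (by omega)]
    norm_num
  rw [this]
  ring

end Pool.Agent.W636.SH
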